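import Pool.Agent.Bht.BK.R1

/-! From inclusions of monomial subspaces to word functions on labelled trees. -/

namespace Pool.Agent.Bht.BK

open Pool.Agent.H25

variable {α : Type} {K : Type*} [Field K]

lemma lin_mul (F : Wd → K) (x y : TT K) :
    lin F (x * y) = lin (fun u => lin (fun v => F (u * v)) y) x := by
  refine T_ind (P := fun x => lin F (x * y) = lin (fun u => lin (fun v => F (u * v)) y) x) ?_ ?_ ?_ ?_ x
  · simp
  · intro x x' h h'
    simp only [add_mul, map_add, h, h']
  · intro c x h
    simp only [smul_mul_assoc, map_smul, h]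
  · intro u
    rw [lin_wd]
    refine T_ind (P := fun y => lin F (wd u * y) = lin (fun v => F (u * v)) y) ?_ ?_ ?_ ?_ y
    · simp
    · intro y y' h h'
      simp only [mul_add, map_add, h, h']
    · intro c y h
      simp only [mul_smul_comm, map_smul, h]
    · intro v
      rw [← wd_mul, lin_wd, lin_wd]

/-- the Lie monomial of a labelled tree -/
noncomputable def elem (K : Type*) [Field K] (e : α → ℕ × ℕ) : LT α → TT K
  | LT.leaf x => wd (FreeMonoid.of (e x))
  | LT.node a b => elem K e a * elem K e b - elem K e b * elem K e a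

lemma val_elem (e : α → ℕ × ℕ) (L : LT α) (F : Wd → K) :
    L.val (fun w => F (FreeMonoid.ofList (w.map e))) = lin F (elem K e L) := by
  induction L generalizing F with
  | leaf x => rw [LT.val, elem, lin_wd]; rfl
  | node a b iha ihb =>
    rw [LT.val, elem, map_sub, lin_mul, lin_mul]
    simp only [List.map_append, FreeMonoid.ofList_append]
    congr 1
    · rw [← iha (fun u => lin (fun v => F (u * v)) (elem K e b))]
      simp only [← ihb]
    · rw [← ihb (fun u => lin (fun v => F (u * v)) (elem K e a))]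
      simp only [← iha]

lemma elem_mem (e : α → ℕ) (L : LT α) : elem K (fun x => (e x, 0)) L ∈ X0 K L.shape := by
  induction L with
  | leaf x => rw [elem, LT.shape, X0]; exact letter_mem_V1 _ _
  | node a b iha ihb => rw [elem, LT.shape, X0]; exact mem_br iha ihb

/-- the tree `t` with the labels `f c, f (c + 1), …` -/
def lab (f : ℕ → ℕ) : BT → ℕ → LT ℕ
  | BT.leaf, c => LT.leaf (f c)
  | BT.node a b, c => LT.node (lab f a c) (lab f b (c + a.lv))

lemma lab_shape (f : ℕ → ℕ) : ∀ (t : BT) (c : ℕ), (lab f t c).shape = t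
  | BT.leaf, c => rfl
  | BT.node a b, c => by rw [lab, LT.shape, lab_shape f a, lab_shape f b]

lemma elem_lab (f : ℕ → ℕ) : ∀ (t : BT) (c : ℕ),
    elem K (fun n : ℕ => (n, 0)) (lab f t c) = monoT K f t c
  | BT.leaf, c => by rw [lab, elem, monoT]
  | BT.node a b, c => by rw [lab, elem, monoT, elem_lab f a, elem_lab f b]

lemma exists_map (e : α → ℕ) (L : LT ℕ) (h : ∀ x ∈ L.leaves, ∃ y, e y = x) :
    ∃ M : LT α, M.map e = L := by
  induction L with
  | leaf x =>
    obtain ⟨y, hy⟩ := h x (by simp [LT.leaves])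
    exact ⟨LT.leaf y, by rw [LT.map, hy]⟩
  | node a b iha ihb =>
    obtain ⟨A, hA⟩ := iha (fun x hx => h x (by rw [LT.leaves]; exact List.mem_append_left _ hx))
    obtain ⟨B, hB⟩ := ihb (fun x hx => h x (by rw [LT.leaves]; exact List.mem_append_right _ hx))
    exact ⟨LT.node A B, by rw [LT.map, hA, hB]⟩

/-- letters as numbers -/
def enc : Lt → ℕ
  | Lt.mark i => 2 * i
  | Lt.bl j k => 2 * Nat.pair j k + 1

lemma enc_inj : Function.Injective enc := by
  intro x y h
  cases x with
  | mark i =>
    cases y with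
    | mark j => simp only [enc] at h; congr 1; omega
    | bl j k => simp only [enc] at h; omega
  | bl i l =>
    cases y with
    | mark j => simp only [enc] at h; omega
    | bl j k =>
      simp only [enc] at h
      have h1 : Nat.pair i l = Nat.pair j k := by omega
      rw [Nat.pair_eq_pair] at h1
      rw [h1.1, h1.2]

open Classical in
/-- a word function on encoded words -/
noncomputable def ext (φ : List Lt → K) (w : Wd) : K :=
  if h : ∃ l : List Lt, w = FreeMonoid.ofList ((l.map enc).map (fun n => (n, 0))) then φ h.choose else 0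

lemma ext_ofList (φ : List Lt → K) (l : List Lt) :
    ext φ (FreeMonoid.ofList ((l.map enc).map (fun n => (n, 0)))) = φ l := by
  have h : ∃ l' : List Lt, FreeMonoid.ofList ((l.map enc).map (fun n : ℕ => (n, 0))) =
      FreeMonoid.ofList ((l'.map enc).map (fun n : ℕ => (n, 0))) := ⟨l, rfl⟩
  rw [ext, dif_pos h]
  have h1 := h.choose_spec
  have h2 := FreeMonoid.ofList.injective h1
  have hj : Function.Injective (fun n : ℕ => (n, 0)) := fun a b hab => (Prod.ext_iff.1 hab).1
  have h3 := List.map_injective_iff.2 hj h2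
  have h4 := List.map_injective_iff.2 enc_inj h3
  rw [← h4]

theorem bridge {s t : BT} (h : X0 K s ≤ X0 K t) (φ : List Lt → K) (L : LT Lt) (hs : L.shape = s)
    (hne : L.val φ ≠ 0) : ∃ M : LT Lt, M.shape = t ∧ M.val φ ≠ 0 := by
  -- the value as a linear functional
  have e1 : L.val φ = lin (ext φ) (elem K (fun x => (enc x, 0)) L) := by
    rw [← val_elem]
    refine congrArg (L.val) (funext fun w => ?_)
    rw [← ext_ofList φ w, List.map_map]
    rfl
  have h1 : elem K (fun x => (enc x, 0)) L ∈ X0 K t := h (hs ▸ elem_mem enc L)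
  have h2 := X0_le_span t 0 h1
  have h3 : ∃ f : ℕ → ℕ, lin (ext φ) (monoT K f t 0) ≠ 0 := by
    by_contra hcon
    push Not at hcon
    apply hne
    rw [e1]
    have h4 : Submodule.span K (Set.range (fun f => monoT K f t 0)) ≤ LinearMap.ker (lin (ext φ)) := by
      rw [Submodule.span_le]
      rintro _ ⟨f, rfl⟩
      exact hcon f
    exact h4 h2
  obtain ⟨f, hf⟩ := h3
  rw [← elem_lab f t 0, ← val_elem] at hf
  obtain ⟨w, hw, hw'⟩ := exists_perm_of_val_ne _ hf
  have h5 : ∃ l : List Lt, w = l.map enc := by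
    by_contra hcon
    apply hw'
    rw [ext, dif_neg]
    rintro ⟨l, hl⟩
    have h6 := FreeMonoid.ofList.injective hl
    have hj : Function.Injective (fun n : ℕ => (n, 0)) := fun a b hab => (Prod.ext_iff.1 hab).1
    exact hcon ⟨l, List.map_injective_iff.2 hj h6⟩
  obtain ⟨l, rfl⟩ := h5
  obtain ⟨M, hM⟩ := exists_map enc (lab f t 0) (fun x hx => by
    obtain ⟨y, _, hy⟩ := List.mem_map.1 (hw.symm.subset hx)
    exact ⟨y, hy⟩)
  refine ⟨M, ?_, ?_⟩
  · rw [← shape_map enc M, hM, lab_shape]
  · rw [← hM, val_map] at hf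
    simp only [ext_ofList] at hf
    exact hf

end Pool.Agent.Bht.BK
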