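import Pool.Agent.H25.Main
import Pool.Agent.H25.Sem
import Pool.Agent.H25.BaseChange
import Pool.Agent.H25.Small

/-! Level tests for Lie monomial subspaces: signatures. -/

namespace Pool.Agent.Bht.BK

open Pool.Agent.H25

/-- trees with labelled leaves -/
inductive LT (α : Type) where
  | leaf : α → LT α
  | node : LT α → LT α → LT α

namespace LT
variable {α : Type}

/-- the underlying tree -/
def shape : LT α → BT
  | leaf _ => BT.leaf
  | node a b => BT.node a.shape b.shape

/-- the labels from left to right -/
def leaves : LT α → List α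
  | leaf x => [x]
  | node a b => a.leaves ++ b.leaves

/-- the value of a function of words on the Lie monomial of a labelled tree -/
def val {K : Type*} [Field K] : LT α → (List α → K) → K
  | leaf x, φ => φ [x]
  | node a b, φ =>
    val a (fun p => val b (fun q => φ (p ++ q))) - val b (fun q => val a (fun p => φ (q ++ p)))

/-- `Cl C L`: `C` is a clade of `L` -/
inductive Cl : LT α → LT α → Prop
  | refl (L : LT α) : Cl L L
  | left {C a : LT α} (b : LT α) : Cl C a → Cl C (node a b)
  | right {C b : LT α} (a : LT α) : Cl C b → Cl C (node a b)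

end LT

/-- letters: marks and letters of blocks -/
inductive Lt where
  | mark : ℕ → Lt
  | bl : ℕ → ℕ → Lt
deriving DecidableEq

namespace Lt

/-- is a mark -/
def isMark : Lt → Bool
  | mark _ => true
  | bl _ _ => false

/-- is in block `j` -/
def inBl (j : ℕ) : Lt → Bool
  | mark _ => false
  | bl k _ => k == j

/-- the number inside block `j` -/
def idx (j : ℕ) : Lt → Option ℕ
  | mark _ => none
  | bl k i => if k = j then some i else none

/-- the noncommuting pairs -/
def nc : Lt → Lt → Prop
  | mark _, _ => True
  | _, mark _ => True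
  | bl j _, bl k _ => j = k

end Lt

/-- test data: number of marks, number of blocks, sizes, functionals and position weights -/
structure Dat (K : Type*) where
  N : ℕ
  J : ℕ
  sz : ℕ → ℕ
  ψ : ℕ → List ℕ → K
  ζ : ℕ → ℕ → K

namespace Dat
variable {K : Type*} [Field K]

/-- the marks in order -/
def marks (D : Dat K) : List Lt := (List.range D.N).map Lt.mark

/-- all letters -/
def all (D : Dat K) : List Lt :=
  D.marks ++ (List.range D.J).flatMap (fun j => (List.range (D.sz j)).map (Lt.bl j))

/-- the factor of block `j` -/
def F (D : Dat K) (j : ℕ) (w : List Lt) : K :=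
  ∑ a ∈ Finset.range (D.N + 1),
    if w.filter (fun x => x.isMark || x.inBl j) =
        D.marks.take a ++ w.filter (fun x => x.inBl j) ++ D.marks.drop a
    then D.ψ j (w.filterMap (Lt.idx j)) * D.ζ j a else 0

open Classical in
/-- the test function on words -/
noncomputable def φ (D : Dat K) (w : List Lt) : K :=
  if w.Perm D.all ∧ w.filter (fun x => x.isMark) = D.marks then ∏ j ∈ Finset.range D.J, D.F j w else 0

end Dat

/-- trees with marked leaves and unmarked maximal clades -/
inductive MT where
  | mark : MT
  | node : MT → MT → MT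
  | hang : MT → BT → MT

namespace MT

/-- shape -/
def shape : MT → BT
  | mark => BT.leaf
  | node a b => BT.node a.shape b.shape
  | hang a s => BT.node a.shape s

/-- number of marks -/
def marks : MT → ℕ
  | mark => 1
  | node a b => a.marks + b.marks
  | hang a _ => a.marks

/-- unmarked maximal clades with the number of marks of the sibling -/
def hangs : MT → List (BT × ℕ)
  | mark => []
  | node a b => a.hangs ++ b.hangs
  | hang a s => a.hangs ++ [(s, a.marks)]

end MT

section
open Classical

/-- number of minimal clades with at least `r` leaves -/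
noncomputable def cge (r : ℕ) : BT → ℕ
  | BT.leaf => if r ≤ 1 then 1 else 0
  | BT.node a b => if cge r a + cge r b = 0 then (if r ≤ a.lv + b.lv then 1 else 0) else cge r a + cge r b

/-- alive: exactly `r` leaves and `al` -/
def Aliv (r : ℕ) (al : BT → Prop) (s : BT) : Prop := s.lv = r ∧ al s

/-- number of alive objects -/
noncomputable def Rn (r : ℕ) (al : BT → Prop) : BT → ℕ
  | BT.leaf => 0
  | BT.node a b => Rn r al a + Rn r al b +
      (if (Aliv r al a ∧ r ≤ b.lv) ∨ (Aliv r al b ∧ r ≤ a.lv) then 1 else 0)

/-- number of marks in a saturated labelling -/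
noncomputable def mk (r : ℕ) (al : BT → Prop) (s : BT) : ℕ := cge r s - Rn r al s

/-- number of objects killed by period `m` -/
noncomputable def Kn (r : ℕ) (al : BT → Prop) (m : ℕ) : BT → ℕ
  | BT.leaf => 0
  | BT.node a b => Kn r al m a + Kn r al m b +
      (if (Aliv r al a ∧ r ≤ b.lv ∧ m ∣ mk r al b) ∨ (Aliv r al b ∧ r ≤ a.lv ∧ m ∣ mk r al a) then 1 else 0)

/-- alive modulo a submodule -/
def alN {K : Type*} [Field K] (P : Submodule K (TT K)) (s : BT) : Prop := ¬ X0 K s ≤ P

/-- the saturated marked tree -/
noncomputable def mt (r : ℕ) (al : BT → Prop) : BT → MT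
  | BT.leaf => MT.mark
  | BT.node a b =>
    if r ≤ a.lv ∧ r ≤ b.lv then
      (if Aliv r al a then MT.hang (mt r al b) a
       else if Aliv r al b then MT.hang (mt r al a) b
       else MT.node (mt r al a) (mt r al b))
    else if r ≤ b.lv then MT.hang (mt r al b) a
    else MT.hang (mt r al a) b

end

/-- all additive invariants agree -/
def Eqv (K : Type*) [Field K] (s t : BT) : Prop :=
  s.lv = t.lv ∧ ∀ r, 1 ≤ r → r < s.lv → cge r s = cge r t ∧
    ∀ P : Submodule K (TT K), Rn r (alN P) s = Rn r (alN P) t ∧
      ∀ m, 2 ≤ m → Kn r (alN P) m s = Kn r (alN P) m t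

/-- siblings of equal size at least 6 are isomorphic -/
def Tw : BT → Prop
  | BT.leaf => True
  | BT.node a b => Tw a ∧ Tw b ∧ (a.lv = b.lv → 6 ≤ a.lv → BT.Iso a b)

end Pool.Agent.Bht.BK
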